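import Pool.Agent.EVF.StmtsG

/-!
# Squad EVF, row MES: the good points and the measurability of the kernel
-/

set_option autoImplicit false

namespace Pool.Agent.EVF.H84

open Pool.Agent.EVF
open MvPolynomial MeasureTheory Matrix

variable {r : ℕ}

theorem cont_aeval (G : MvPolynomial (Fin 2) ℤ) :
    Continuous (fun z : ℂ × ℂ => (aeval ![z.1, z.2] G : ℂ)) := by
  have h := Helper90Frey.continuous_val (cpx G)
  have e : (fun z : ℂ × ℂ => (aeval ![z.1, z.2] G : ℂ)) =
      fun z : ℂ × ℂ => Helper90Frey.val (cpx G) z.1 z.2 := by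
    funext z
    rw [val_cpx]
  rw [e]
  exact h

theorem zeros_eq {e : ℕ} {l : ℂ} (N : Mat r)
    (h : Helper90Frey.Lead (cmat N).det e l) (x : ℂ) :
    {y : ℂ | aeval ![x, y] (F N) = 0} = (Helper90Frey.rts (cmat N).det x : Set ℂ) := by
  ext y
  rw [Set.mem_ofPred_eq, Finset.mem_coe, h.mem_rts, cmat_det, val_cpx]

theorem kernel_eq {e : ℕ} {l : ℂ} (N : Mat r)
    (h : Helper90Frey.Lead (cmat N).det e l) (q q' : Vec r) (x : ℂ) :
    kernel N q q' x = ∑ y ∈ Helper90Frey.rts (cmat N).det x,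
      (fun z : ℂ × ℂ => form N q q' ![z.1, z.2] /
        ((‖aeval ![z.1, z.2] (pderiv 1 (F N))‖ ^ 2 : ℝ) : ℂ)) (x, y) := by
  unfold kernel
  rw [zeros_eq N h, finsum_mem_coe_finset]

theorem pd_cmat (N : Mat r) (x y : ℂ) :
    Helper90Frey.val (pderiv 1 (cmat N).det) x y = aeval ![x, y] (pderiv 1 (F N)) := by
  rw [cmat_det, ← val_cpx]
  unfold cpx
  rw [MvPolynomial.pderiv_map]

/-- module MES -/
theorem mes (lea : LeaStmt) (gfi : GfiStmt) (rk1 : Rk1Stmt) : MesStmt := by
  intro r s N hg hsh hred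
  obtain ⟨hL, -⟩ := lea r s (cmat N) hg hsh
  have he : 1 ≤ s.deg / s.v :=
    Nat.div_pos hg.lt.le hg.v_pos
  have hfin := gfi (cmat N).det (s.deg / s.v) _ he hL (by
    obtain ⟨x, hx⟩ := hred
    refine ⟨x, ?_⟩
    rw [zeros_eq N hL, Set.ncard_coe_finset] at hx
    exact hx)
  refine ⟨hfin, fun q q' => ?_⟩
  have hopen := hL.isOpen_card
  have hcont : ContinuousOn (kernel N q q')
      {x | (Helper90Frey.rts (cmat N).det x).card = s.deg / s.v} := by
    intro x hx
    apply ContinuousAt.continuousWithinAt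
    have hk : kernel N q q' = fun x => ∑ y ∈ Helper90Frey.rts (cmat N).det x,
      (fun z : ℂ × ℂ => form N q q' ![z.1, z.2] /
        ((‖aeval ![z.1, z.2] (pderiv 1 (F N))‖ ^ 2 : ℝ) : ℂ)) (x, y) := by
      funext x
      exact kernel_eq N hL q q' x
    rw [hk]
    apply hL.continuousAt_sum hx (fun z : ℂ × ℂ => form N q q' ![z.1, z.2] /
        ((‖(aeval ![z.1, z.2] (pderiv 1 (F N)) : ℂ)‖ ^ 2 : ℝ) : ℂ))
    intro y hy
    have hy0 : Helper90Frey.val (cmat N).det x y = 0 := hL.mem_rts.1 hy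
    have hd : Helper90Frey.val (pderiv 1 (cmat N).det) x y ≠ 0 :=
      (hL.card_eq_iff x).1 hx y hy0
    obtain ⟨w, hw, hww⟩ := rk1 r (cmat N) hsh.symm x y hy0 hd
    have hadj : ∀ i j, adj N ![x, y] i j = w i * w j := by
      intro i j
      rw [← hww, cmat_adj, val_cpx]
      rfl
    have hhs : hs (adj N ![x, y]) ≠ 0 := by
      intro h0
      apply hw
      unfold hs at h0
      have hnn : 0 ≤ ∑ i, ∑ j, ‖adj N ![x, y] i j‖ ^ 2 :=
        Finset.sum_nonneg fun i _ => Finset.sum_nonneg fun j _ => sq_nonneg _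
      rw [Real.sqrt_eq_zero hnn,
        Finset.sum_eq_zero_iff_of_nonneg (fun i _ => Finset.sum_nonneg fun j _ => sq_nonneg _)] at h0
      funext i
      have h1 := h0 i (Finset.mem_univ i)
      rw [Finset.sum_eq_zero_iff_of_nonneg (fun j _ => sq_nonneg _)] at h1
      have h2 := h1 i (Finset.mem_univ i)
      rw [sq_eq_zero_iff, norm_eq_zero, hadj, mul_self_eq_zero] at h2
      exact h2
    have hA : ∀ i j, Continuous (fun z : ℂ × ℂ => adj N ![z.1, z.2] i j) := by
      intro i j
      exact cont_aeval (N.adjugate i j)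
    have hhsc : Continuous (fun z : ℂ × ℂ => ((hs (adj N ![z.1, z.2]) : ℝ) : ℂ)) := by
      apply Complex.continuous_ofReal.comp
      unfold hs
      apply Real.continuous_sqrt.comp
      exact continuous_finsetSum _ fun i _ => continuous_finsetSum _ fun j _ =>
        (hA i j).norm.pow 2
    have hmv : ∀ (q : Vec r) (i : Fin r), Continuous (fun z : ℂ × ℂ =>
        (adj N ![z.1, z.2] *ᵥ fun i => (aeval ![z.1, z.2] (q i) : ℂ)) i) := by
      intro q i
      unfold Matrix.mulVec dotProduct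
      exact continuous_finsetSum _ fun j _ => (hA i j).mul (cont_aeval (q j))
    have hnum : Continuous (fun z : ℂ × ℂ =>
        ((adj N ![z.1, z.2] *ᵥ fun i => (aeval ![z.1, z.2] (q i) : ℂ)) ⬝ᵥ
          star (adj N ![z.1, z.2] *ᵥ fun i => (aeval ![z.1, z.2] (q' i) : ℂ)))) := by
      unfold dotProduct
      refine continuous_finsetSum _ fun i _ => ?_
      have h1 := hmv q i
      have h2 := continuous_star.comp (hmv q' i)
      exact h1.mul h2
    apply ContinuousAt.div
    · unfold form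
      apply ContinuousAt.div hnum.continuousAt hhsc.continuousAt
      exact_mod_cast hhs
    · exact (Complex.continuous_ofReal.comp ((cont_aeval _).norm.pow 2)).continuousAt
    · rw [pd_cmat] at hd
      have h3 : (‖(aeval ![x, y] (pderiv 1 (F N)) : ℂ)‖ ^ 2 : ℝ) ≠ 0 :=
        pow_ne_zero 2 (norm_ne_zero_iff.2 hd)
      exact_mod_cast h3
  have h1 := hcont.aestronglyMeasurable (μ := volume) hopen.measurableSet
  have hr : (volume : Measure ℂ).restrict
      {x | (Helper90Frey.rts (cmat N).det x).card = s.deg / s.v} = volume := by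
    apply Measure.restrict_eq_self_of_ae_mem
    rw [ae_iff]
    exact hfin.measure_zero volume
  rwa [hr] at h1

end Pool.Agent.EVF.H84
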